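import Pool.Agent.Helper89.Stx.Defs
import Pool.Agent.Helper89.Stz.CL
import Pool.Agent.Helper65.Stz.Crit
import Pool.Agent.Helper65.Stz.Mid
import Pool.Agent.Helper66.Stz.L4

/-!
# MP_65a63f_X: one space variable
-/

set_option autoImplicit false

namespace Stx

open Finset

namespace CritOne

/-- the coefficients as a function of one natural number -/
def co (a : ℕ → (Fin 1 → ℕ) → ℂ) (n m : ℕ) : ℂ := a n (fun _ => m)

lemma sum_IJ (N : ℕ) (g : (Fin 1 → ℕ) → ℂ) :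
    ∑ m ∈ IJ 1 N, g m = ∑ m ∈ range N, g (fun _ => m) := by
  refine Finset.sum_nbij' (fun m => m 0) (fun m _ => m) ?_ ?_ ?_ ?_ ?_
  · intro m hm
    exact (Fintype.mem_piFinset.1 hm) 0
  · intro m hm
    exact Fintype.mem_piFinset.2 fun _ => hm
  · intro m _
    ext l
    rw [Subsingleton.elim l 0]
  · intro m _
    rfl
  · intro m _
    congr 1
    ext l
    rw [Subsingleton.elim l 0]

lemma sum_IJ' (N : ℕ) (g : (Fin 1 → ℕ) → ℝ) :
    ∑ m ∈ IJ 1 N, g m = ∑ m ∈ range N, g (fun _ => m) := by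
  refine Finset.sum_nbij' (fun m => m 0) (fun m _ => m) ?_ ?_ ?_ ?_ ?_
  · intro m hm
    exact (Fintype.mem_piFinset.1 hm) 0
  · intro m hm
    exact Fintype.mem_piFinset.2 fun _ => hm
  · intro m _
    ext l
    rw [Subsingleton.elim l 0]
  · intro m _
    rfl
  · intro m _
    congr 1
    ext l
    rw [Subsingleton.elim l 0]

lemma F_eq (A : ℕ) [NeZero A] (I : Finset ℕ) (N : ℕ) (a : ℕ → (Fin 1 → ℕ) → ℂ) (z : ZMod A)
    (y : Fin 1 → ZMod A) : F A 1 I N a z y = Stz.F A I N (co a) z (y 0) := by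
  unfold F Stz.F co
  refine Finset.sum_congr rfl fun n _ => ?_
  rw [sum_IJ]
  refine Finset.sum_congr rfl fun m _ => ?_
  simp

lemma nsq_eq (I : Finset ℕ) (N : ℕ) (a : ℕ → (Fin 1 → ℕ) → ℂ) :
    nsq 1 I N a = Stz.nsq I N (co a) := by
  unfold nsq Stz.nsq co
  refine Finset.sum_congr rfl fun n _ => ?_
  rw [sum_IJ']

lemma lev_card (A : ℕ) [NeZero A] (I : Finset ℕ) (N : ℕ) (a : ℕ → (Fin 1 → ℕ) → ℂ) (lam : ℝ) :
    (lev A 1 I N a lam).card = (Stz.lev A I N (co a) lam).card := by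
  unfold lev Stz.lev
  refine Finset.card_bij' (fun w _ => (w.1, w.2 0)) (fun w _ => (w.1, fun _ => w.2)) ?_ ?_ ?_ ?_
  · intro w hw
    rw [Finset.mem_filter] at hw ⊢
    exact ⟨Finset.mem_univ _, by rw [← F_eq]; exact hw.2⟩
  · intro w hw
    rw [Finset.mem_filter] at hw ⊢
    exact ⟨Finset.mem_univ _, by rw [F_eq]; exact hw.2⟩
  · rintro ⟨z, y⟩ _
    simp only [Prod.mk.injEq, true_and]
    ext l
    rw [Subsingleton.elim l 0]
  · intro w _
    rfl

lemma good_lt (N b A : ℕ) [NeZero A] (hN : 1 ≤ N) (hb : (b : ℝ) ≤ (N : ℝ) ^ 2)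
    (hg : Stz.Good ((N + 1) ^ 60) A) : 16 * (b + N) ^ 2 < A := by
  have h1 : (N + 1) ^ 60 ∣ A := hg _ (Nat.one_le_pow _ _ (by omega)) le_rfl
  have h2 : (N + 1) ^ 60 ≤ A := Nat.le_of_dvd (Nat.pos_of_ne_zero (NeZero.ne A)) h1
  have hb' : b ≤ N ^ 2 := by exact_mod_cast hb
  have h3 : b + N ≤ (N + 1) ^ 2 := by nlinarith
  have h4 : (b + N) ^ 2 ≤ (N + 1) ^ 4 := by
    calc (b + N) ^ 2 ≤ ((N + 1) ^ 2) ^ 2 := Nat.pow_le_pow_left h3 2
      _ = (N + 1) ^ 4 := by ring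
  have h5 : 16 * (N + 1) ^ 4 < (N + 1) ^ 60 := by
    have h6 : 2 ^ 56 ≤ (N + 1) ^ 56 := Nat.pow_le_pow_left (by omega) 56
    have h7 : 0 < (N + 1) ^ 4 := by positivity
    calc 16 * (N + 1) ^ 4 < 2 ^ 56 * (N + 1) ^ 4 := by
          apply Nat.mul_lt_mul_of_pos_right (by norm_num) h7
      _ ≤ (N + 1) ^ 56 * (N + 1) ^ 4 := Nat.mul_le_mul_right _ h6
      _ = (N + 1) ^ 60 := by rw [← pow_add]
  omega

end CritOne

open CritOne

theorem crit_one : ∃ c : ℝ, 0 < c ∧ ∃ C : ℝ, 0 < C ∧ ∀ N : ℕ, 1 ≤ N →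
    ∀ lam : ℝ, (N : ℝ) ^ ((((1 : ℕ) : ℝ) + 1) / 4 - c) ≤ lam →
    LevB 1 N lam (C * (N : ℝ) ^ (-c) * lam ^ (-2 : ℝ)) := by
  obtain ⟨δ, hδ, C₁, hC₁, hcrit⟩ := Stz.crit Stz.CL_proof Stz.L4L2
  obtain ⟨C₂, hC₂, hmid⟩ := Stz.mid (δ / 4) (by positivity)
  obtain ⟨C₃, hC₃, hbig⟩ := Stz.L4big (1 / 16) (by norm_num)
  set c : ℝ := min δ (1 / 16) with hc
  have hc0 : 0 < c := lt_min hδ (by norm_num)
  have hcδ : c ≤ δ := min_le_left _ _
  have hc1 : c ≤ 1 / 16 := min_le_right _ _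
  refine ⟨c, hc0, max C₁ (max C₂ (2 * C₃)), lt_max_of_lt_left hC₁, ?_⟩
  set C : ℝ := max C₁ (max C₂ (2 * C₃)) with hC
  have hCC1 : C₁ ≤ C := le_max_left _ _
  have hCC2 : C₂ ≤ C := (le_max_left _ _).trans (le_max_right _ _)
  have hCC3 : 2 * C₃ ≤ C := (le_max_right _ _).trans (le_max_right _ _)
  intro N hN lam hlam b A _ hb hg a ha
  have hN1 : (1 : ℝ) ≤ N := by exact_mod_cast hN
  have hN0 : (0 : ℝ) < N := by linarith
  have hA : (0 : ℝ) < A := Nat.cast_pos.mpr (Nat.pos_of_ne_zero (NeZero.ne A))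
  have hlam' : (N : ℝ) ^ (1 / 2 - c) ≤ lam := by
    refine le_trans (le_of_eq ?_) hlam
    congr 1
    push_cast
    ring
  have hlam0 : 0 < lam := lt_of_lt_of_le (Real.rpow_pos_of_pos hN0 _) hlam'
  rw [nsq_eq] at ha
  set a' := co a with ha'
  set I := Icc (b + 1) (b + N) with hI
  unfold mu
  rw [lev_card, ← ha']
  set L := ((Stz.lev A I N a' lam).card : ℝ) with hL
  rw [show (1 : ℕ) + 1 = 2 from rfl, div_le_iff₀ (by positivity)]
  have hN0' : (0 : ℝ) ≤ N := hN0.le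
  by_cases h1 : (N : ℝ) ^ (1 / 2 + δ) < lam
  · -- middle levels
    have h2 : (N : ℝ) ^ (1 / 2 + δ / 4) ≤ lam := by
      refine le_trans ?_ h1.le
      exact Real.rpow_le_rpow_of_exponent_le hN1 (by linarith)
    have h3 := hmid N b A hN hb hg a' ha lam h2
    refine h3.trans ?_
    refine mul_le_mul_of_nonneg_right ?_ (by positivity)
    have h4 : lam ^ (-3 : ℝ) ≤ lam ^ (-2 : ℝ) * (N : ℝ) ^ (-(1 / 2 + δ)) := by
      have e1 : lam ^ (-3 : ℝ) = lam ^ (-2 : ℝ) * lam ^ (-1 : ℝ) := by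
        rw [← Real.rpow_add hlam0]
        norm_num
      rw [e1]
      refine mul_le_mul_of_nonneg_left ?_ (by positivity)
      rw [Real.rpow_neg_one, Real.rpow_neg hN0']
      exact inv_anti₀ (Real.rpow_pos_of_pos hN0 _) h1.le
    calc C₂ * (N : ℝ) ^ (δ / 4) * lam ^ (-3 : ℝ)
        ≤ C₂ * (N : ℝ) ^ (δ / 4) * (lam ^ (-2 : ℝ) * (N : ℝ) ^ (-(1 / 2 + δ))) :=
          mul_le_mul_of_nonneg_left h4 (by positivity)
      _ = C₂ * (N : ℝ) ^ (δ / 4 + -(1 / 2 + δ)) * lam ^ (-2 : ℝ) := by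
          rw [Real.rpow_add hN0]
          ring
      _ ≤ C * (N : ℝ) ^ (-c) * lam ^ (-2 : ℝ) := by
          refine mul_le_mul_of_nonneg_right ?_ (by positivity)
          refine mul_le_mul hCC2 ?_ (by positivity) (by positivity)
          exact Real.rpow_le_rpow_of_exponent_le hN1 (by linarith)
  · push Not at h1
    have h5 : (N : ℝ) ^ (-(1 + 2 * δ)) ≤ lam ^ (-2 : ℝ) := by
      have e1 : lam ^ (2 : ℝ) ≤ (N : ℝ) ^ (1 + 2 * δ) := by
        calc lam ^ (2 : ℝ) ≤ ((N : ℝ) ^ (1 / 2 + δ)) ^ (2 : ℝ) :=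
              Real.rpow_le_rpow hlam0.le h1 (by norm_num)
          _ = (N : ℝ) ^ (1 + 2 * δ) := by
              rw [← Real.rpow_mul hN0']
              congr 1
              ring
      rw [Real.rpow_neg hN0', Real.rpow_neg hlam0.le]
      exact inv_anti₀ (by positivity) e1
    by_cases h2 : (b : ℝ) ≤ (N : ℝ) ^ (5 / 4 : ℝ)
    · -- critical level
      have h3 := hcrit N b A hN h2 hg a' ha lam
        (le_trans (Real.rpow_le_rpow_of_exponent_le hN1 (by linarith)) hlam') h1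
      refine h3.trans ?_
      refine mul_le_mul_of_nonneg_right ?_ (by positivity)
      calc C₁ * (N : ℝ) ^ (-1 - 10 * δ)
          ≤ C * (N : ℝ) ^ (-c + -(1 + 2 * δ)) := by
            refine mul_le_mul hCC1 ?_ (by positivity) (by positivity)
            exact Real.rpow_le_rpow_of_exponent_le hN1 (by linarith)
        _ = C * (N : ℝ) ^ (-c) * (N : ℝ) ^ (-(1 + 2 * δ)) := by
            rw [Real.rpow_add hN0]
            ring
        _ ≤ C * (N : ℝ) ^ (-c) * lam ^ (-2 : ℝ) :=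
            mul_le_mul_of_nonneg_left h5 (by positivity)
    · -- large shift
      push Not at h2
      have hb1 : 1 ≤ b := by
        have : (1 : ℝ) ≤ (N : ℝ) ^ (5 / 4 : ℝ) := Real.one_le_rpow hN1 (by norm_num)
        have : (1 : ℝ) < b := by linarith
        have : 1 < b := by exact_mod_cast this
        omega
      have hb0 : (0 : ℝ) < b := by exact_mod_cast hb1
      have h3 := hbig N b A hN hb1 (good_lt N b A hN hb hg) a'
      have h4 : lam ^ 4 * L ≤ ∑ z : ZMod A, ∑ y : ZMod A, ‖Stz.F A I N a' z y‖ ^ 4 := by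
        have e0 : ∑ z : ZMod A, ∑ y : ZMod A, ‖Stz.F A I N a' z y‖ ^ 4 =
            ∑ w : ZMod A × ZMod A, ‖Stz.F A I N a' w.1 w.2‖ ^ 4 :=
          (Fintype.sum_prod_type (fun w : ZMod A × ZMod A => ‖Stz.F A I N a' w.1 w.2‖ ^ 4)).symm
        rw [e0]
        have e1 : lam ^ 4 * L = ∑ w ∈ Stz.lev A I N a' lam, lam ^ 4 := by
          rw [Finset.sum_const, nsmul_eq_mul, hL]
          ring
        rw [e1]
        refine le_trans (Finset.sum_le_sum fun w hw => ?_)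
          (Finset.sum_le_sum_of_subset_of_nonneg (Finset.subset_univ _)
            (fun w _ _ => by positivity))
        unfold Stz.lev at hw
        exact pow_le_pow_left₀ hlam0.le (Finset.mem_filter.1 hw).2 4
      have h6 : (N : ℝ) ^ 2 / b ≤ (N : ℝ) ^ (3 / 4 : ℝ) := by
        rw [div_le_iff₀ hb0]
        calc (N : ℝ) ^ 2 = (N : ℝ) ^ (3 / 4 : ℝ) * (N : ℝ) ^ (5 / 4 : ℝ) := by
              rw [← Real.rpow_add hN0]
              norm_num
          _ ≤ (N : ℝ) ^ (3 / 4 : ℝ) * b := mul_le_mul_of_nonneg_left h2.le (by positivity)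
      have h7 : (1 : ℝ) ≤ (N : ℝ) ^ (3 / 4 : ℝ) := Real.one_le_rpow hN1 (by norm_num)
      have hns : Stz.nsq I N a' ^ 2 ≤ 1 := by
        have h0 : 0 ≤ Stz.nsq I N a' := by
          unfold Stz.nsq
          positivity
        nlinarith
      have h8 : (A : ℝ)⁻¹ ^ 2 * (lam ^ 4 * L) ≤
          2 * C₃ * ((N : ℝ) ^ (1 / 16 : ℝ) * (N : ℝ) ^ (3 / 4 : ℝ)) := by
        calc (A : ℝ)⁻¹ ^ 2 * (lam ^ 4 * L)
            ≤ (A : ℝ)⁻¹ ^ 2 * ∑ z : ZMod A, ∑ y : ZMod A, ‖Stz.F A I N a' z y‖ ^ 4 :=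
              mul_le_mul_of_nonneg_left h4 (by positivity)
          _ ≤ C₃ * (N : ℝ) ^ (1 / 16 : ℝ) * (1 + (N : ℝ) ^ 2 / b) * Stz.nsq I N a' ^ 2 := h3
          _ ≤ C₃ * (N : ℝ) ^ (1 / 16 : ℝ) * (2 * (N : ℝ) ^ (3 / 4 : ℝ)) * 1 := by
              refine mul_le_mul ?_ hns (by positivity) (by positivity)
              refine mul_le_mul_of_nonneg_left ?_ (by positivity)
              linarith
          _ = _ := by ring
      have h9 : L ≤ 2 * C₃ * (N : ℝ) ^ (13 / 16 : ℝ) * lam ^ (-4 : ℝ) * A ^ 2 := by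
        have e1 : (N : ℝ) ^ (1 / 16 : ℝ) * (N : ℝ) ^ (3 / 4 : ℝ) = (N : ℝ) ^ (13 / 16 : ℝ) := by
          rw [← Real.rpow_add hN0]
          norm_num
        rw [e1] at h8
        have e2 : lam ^ (-4 : ℝ) = (lam ^ 4)⁻¹ := by
          rw [Real.rpow_neg hlam0.le]
          norm_num
        rw [e2]
        have e3 : (A : ℝ)⁻¹ ^ 2 * (lam ^ 4 * L) = L * (lam ^ 4 / (A : ℝ) ^ 2) := by
          field_simp
        rw [e3, ← le_div_iff₀ (by positivity)] at h8
        refine h8.trans (le_of_eq ?_)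
        field_simp
      refine h9.trans ?_
      refine mul_le_mul_of_nonneg_right ?_ (by positivity)
      have h10 : lam ^ (-4 : ℝ) ≤ lam ^ (-2 : ℝ) * (N : ℝ) ^ (-(1 - 2 * c)) := by
        have e1 : lam ^ (-4 : ℝ) = lam ^ (-2 : ℝ) * lam ^ (-2 : ℝ) := by
          rw [← Real.rpow_add hlam0]
          norm_num
        rw [e1]
        refine mul_le_mul_of_nonneg_left ?_ (by positivity)
        have e2 : (N : ℝ) ^ (1 - 2 * c) ≤ lam ^ (2 : ℝ) := by
          calc (N : ℝ) ^ (1 - 2 * c) = ((N : ℝ) ^ (1 / 2 - c)) ^ (2 : ℝ) := by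
                rw [← Real.rpow_mul hN0']
                congr 1
                ring
            _ ≤ lam ^ (2 : ℝ) := Real.rpow_le_rpow (by positivity) hlam' (by norm_num)
        rw [Real.rpow_neg hlam0.le, Real.rpow_neg hN0']
        exact inv_anti₀ (by positivity) e2
      calc 2 * C₃ * (N : ℝ) ^ (13 / 16 : ℝ) * lam ^ (-4 : ℝ)
          ≤ 2 * C₃ * (N : ℝ) ^ (13 / 16 : ℝ) * (lam ^ (-2 : ℝ) * (N : ℝ) ^ (-(1 - 2 * c))) :=
            mul_le_mul_of_nonneg_left h10 (by positivity)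
        _ = 2 * C₃ * (N : ℝ) ^ (13 / 16 + -(1 - 2 * c)) * lam ^ (-2 : ℝ) := by
            rw [Real.rpow_add hN0]
            ring
        _ ≤ C * (N : ℝ) ^ (-c) * lam ^ (-2 : ℝ) := by
            refine mul_le_mul_of_nonneg_right ?_ (by positivity)
            refine mul_le_mul hCC3 ?_ (by positivity) (by positivity)
            refine Real.rpow_le_rpow_of_exponent_le hN1 ?_
            linarith
end Stx
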